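import Mathlib
import Pool.Agent.Q114.CycleSearch

/-!
# MP_df7c80_co: the saturation number for the cycles of length 1 modulo 3

The conjectured formula `⌈5n/4 - 3/2⌉` fails for `n = 15`: there is a saturated graph with
15 vertices and 17 edges, while the formula gives 18.
-/

namespace Pool.Agent.Results.MP_df7c80_co.ShortFall

open SimpleGraph

/-- `G` is saturated for the family of all cycles `C_r` with `r ∈ I` (where `I` is a set of
integers at least `3`): `G` contains no such cycle, and joining any two distinct non-adjacent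
vertices by an edge creates one.  (`cycleGraph r ⊑ G` is Mathlib's relation saying that `G` has a
subgraph isomorphic to the cycle graph `C_r`.) -/
def IsSaturated {V : Type} (I : Set ℕ) (G : SimpleGraph V) : Prop :=
  (∀ r ∈ I, ¬ cycleGraph r ⊑ G) ∧
    ∀ x y : V, x ≠ y → ¬ G.Adj x y → ∃ r ∈ I, cycleGraph r ⊑ (G ⊔ edge x y)

/-- The saturation number: the least number of edges of a saturated graph with `n` vertices. -/
noncomputable def sat (n : ℕ) (I : Set ℕ) : ℕ :=
  sInf {m : ℕ | ∃ G : SimpleGraph (Fin n), IsSaturated I G ∧ G.edgeSet.ncard = m}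

/-- The lengths in the problem: `3 ℤ₊ + 1 = {4, 7, 10, 13, …}`. -/
def lengths : Set ℕ := {r | ∃ i : ℕ, 1 ≤ i ∧ r = 3 * i + 1}

/-- The list of edges. -/
def edgeList : List (ℕ × ℕ) :=
  [(0, 1), (0, 5), (0, 6), (0, 2), (1, 2), (2, 3), (3, 4), (3, 7), (4, 5), (6, 7),
   (0, 8), (1, 9), (2, 10), (4, 11), (5, 12), (6, 13), (7, 14)]

/-- Boolean adjacency. -/
def adj (a b : Fin 15) : Bool :=
  edgeList.elem (a.1, b.1) || edgeList.elem (b.1, a.1)

/-- The graph: an 8-vertex core with 10 edges and seven pendant edges. -/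
def G15 : SimpleGraph (Fin 15) where
  Adj a b := adj a b = true
  symm := ⟨by decide +kernel⟩
  loopless := ⟨by decide +kernel⟩

instance : DecidableRel G15.Adj := fun a b => inferInstanceAs (Decidable (adj a b = true))

lemma no4 : ¬ cycleGraph 4 ⊑ G15 :=
  Q114.no_cycle adj (fun _ _ => Iff.rfl) 2 (by decide +kernel)

lemma no7 : ¬ cycleGraph 7 ⊑ G15 :=
  Q114.no_cycle adj (fun _ _ => Iff.rfl) 5 (by decide +kernel)

lemma no10 : ¬ cycleGraph 10 ⊑ G15 :=
  Q114.no_cycle adj (fun _ _ => Iff.rfl) 8 (by decide +kernel)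

lemma no13 : ¬ cycleGraph 13 ⊑ G15 :=
  Q114.no_cycle adj (fun _ _ => Iff.rfl) 11 (by decide +kernel)

lemma pairs : ∀ x y : Fin 15, x ≠ y → adj x y = false →
    Q114.ext adj 3 x y [x] = true ∨ Q114.ext adj 6 x y [x] = true ∨
      Q114.ext adj 9 x y [x] = true := by decide +kernel

theorem saturated : IsSaturated lengths G15 := by
  refine ⟨?_, ?_⟩
  · rintro r ⟨i, hi, rfl⟩
    by_cases h : i ≤ 4
    · interval_cases i
      · exact no4
      · exact no7
      · exact no10
      · exact no13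
    · exact Q114.no_long_cycle (by omega)
  · intro x y hxy hn
    have hle : G15 ≤ G15 ⊔ edge x y := le_sup_left
    have hyx : (G15 ⊔ edge x y).Adj y x := by
      rw [sup_adj, edge_adj]
      exact Or.inr ⟨Or.inr ⟨rfl, rfl⟩, hxy.symm⟩
    have hf : adj x y = false := by
      rw [← Bool.not_eq_true]; exact hn
    rcases pairs x y hxy hf with h | h | h
    · exact ⟨4, ⟨1, by norm_num, by norm_num⟩,
        Q114.cycle_of_ext adj (fun _ _ => Iff.rfl) 2 hle hyx h⟩
    · exact ⟨7, ⟨2, by norm_num, by norm_num⟩,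
        Q114.cycle_of_ext adj (fun _ _ => Iff.rfl) 5 hle hyx h⟩
    · exact ⟨10, ⟨3, by norm_num, by norm_num⟩,
        Q114.cycle_of_ext adj (fun _ _ => Iff.rfl) 8 hle hyx h⟩

lemma edge_count : G15.edgeSet.ncard = 17 := by
  rw [← SimpleGraph.coe_edgeFinset, Set.ncard_coe_finset]
  decide +kernel

theorem sat_le : sat 15 lengths ≤ 17 :=
  Nat.sInf_le ⟨G15, saturated, edge_count⟩

/-- The formula fails: `sat(15, C_{3ℤ₊+1}) ≤ 17 < 18 = ⌈5·15/4 - 3/2⌉`. -/
theorem result :
    ¬ (∀ n : ℕ, 1 ≤ n → (sat n lengths : ℤ) = ⌈(5 * n / 4 - 3 / 2 : ℚ)⌉) ∧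
      sat 15 lengths ≤ 17 ∧ ⌈(5 * (15 : ℕ) / 4 - 3 / 2 : ℚ)⌉ = 18 := by
  have hc : ⌈(5 * (15 : ℕ) / 4 - 3 / 2 : ℚ)⌉ = 18 := by
    rw [Int.ceil_eq_iff]
    norm_num
  refine ⟨?_, sat_le, hc⟩
  intro h
  have h15 := h 15 (by norm_num)
  rw [hc] at h15
  have := sat_le
  omega

end Pool.Agent.Results.MP_df7c80_co.ShortFall
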